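import Pool.Agent.Run7.h113.DG.Pow

/-!
# Asymptotics of the twists (piece S_asym of project DG)
-/

open Real Matrix Filter Topology

noncomputable section

namespace Run7.h113.DG

open Run7.h568.DG

variable {D : Type} [Fintype D] [DecidableEq D]

theorem snext_lt (T : Tri D) (c : D → ℕ) (hc : T.Match c) (v : D × ℕ)
    (hv : v.2 < T.num c v.1) : (T.snext c v).2 < T.num c (T.snext c v).1 := by
  unfold Tri.snext
  split_ifs with h
  · show v.2 < T.num c (T.io (T.sg (T.sg v.1)))
    rw [hc]
    unfold Tri.num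
    rw [T.sg3]
    omega
  · show v.2 - c v.1 + c (T.sg (T.sg v.1)) < T.num c (T.io (T.sg v.1))
    rw [hc]
    unfold Tri.num at hv ⊢
    omega

/-- The strand with the opposite direction. -/
def rev (T : Tri D) (c : D → ℕ) (v : D × ℕ) : D × ℕ := (T.io v.1, T.num c v.1 - 1 - v.2)

theorem rev_lt (T : Tri D) (c : D → ℕ) (hc : T.Match c) (v : D × ℕ)
    (hv : v.2 < T.num c v.1) : (rev T c v).2 < T.num c (rev T c v).1 := by
  show T.num c v.1 - 1 - v.2 < T.num c (T.io v.1)
  rw [hc]
  omega

theorem rev_rev (T : Tri D) (c : D → ℕ) (hc : T.Match c) (v : D × ℕ)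
    (hv : v.2 < T.num c v.1) : rev T c (rev T c v) = v := by
  unfold rev
  rw [hc, T.io_io]
  refine Prod.ext rfl ?_
  show T.num c v.1 - 1 - (T.num c v.1 - 1 - v.2) = v.2
  omega

theorem snext_rev_snext (T : Tri D) (c : D → ℕ) (hc : T.Match c) (v : D × ℕ)
    (hv : v.2 < T.num c v.1) : T.snext c (rev T c (T.snext c v)) = rev T c v := by
  obtain ⟨d, i⟩ := v
  simp only at hv
  by_cases h : i < c d
  · have e1 : T.snext c (d, i) = (T.io (T.sg (T.sg d)), i) := by
      unfold Tri.snext
      rw [if_pos h]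
    rw [e1]
    have e2 : rev T c (T.io (T.sg (T.sg d)), i) =
        (T.sg (T.sg d), c (T.sg (T.sg d)) + c d - 1 - i) := by
      unfold rev
      rw [hc, T.io_io]
      unfold Tri.num
      rw [T.sg3]
    rw [e2]
    unfold Tri.snext
    rw [if_neg (by simp only; omega)]
    unfold rev
    simp only
    rw [T.sg3]
    refine Prod.ext rfl ?_
    unfold Tri.num
    simp only
    omega
  · have e1 : T.snext c (d, i) = (T.io (T.sg d), i - c d + c (T.sg (T.sg d))) := by
      unfold Tri.snext
      rw [if_neg h]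
    rw [e1]
    unfold Tri.num at hv
    have e2 : rev T c (T.io (T.sg d), i - c d + c (T.sg (T.sg d))) =
        (T.sg d, c (T.sg d) + c d - 1 - i) := by
      unfold rev
      rw [hc, T.io_io]
      unfold Tri.num
      refine Prod.ext rfl ?_
      simp only
      omega
    rw [e2]
    unfold Tri.snext
    rw [if_pos (by simp only; omega)]
    unfold rev
    simp only
    rw [T.sg3]
    refine Prod.ext rfl ?_
    unfold Tri.num
    simp only
    omega

theorem snext_inj (T : Tri D) (c : D → ℕ) (hc : T.Match c) (v w : D × ℕ)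
    (hv : v.2 < T.num c v.1) (hw : w.2 < T.num c w.1) (h : T.snext c v = T.snext c w) :
    v = w := by
  have h1 := snext_rev_snext T c hc v hv
  have h2 := snext_rev_snext T c hc w hw
  rw [h, h2] at h1
  have h3 := congrArg (rev T c) h1
  rw [rev_rev T c hc v hv, rev_rev T c hc w hw] at h3
  exact h3.symm

theorem fin_strands (T : Tri D) (c : D → ℕ) : Finite {v : D × ℕ // v.2 < T.num c v.1} := by
  have h : {v : D × ℕ | v.2 < T.num c v.1} ⊆
      (Set.univ : Set D) ×ˢ Set.Iio (∑ d, T.num c d + 1) := by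
    intro v hv
    refine ⟨Set.mem_univ _, ?_⟩
    have h1 := Finset.single_le_sum (f := fun d => T.num c d) (fun _ _ => Nat.zero_le _)
      (Finset.mem_univ v.1)
    simp only [Set.mem_ofPred_eq, Set.mem_Iio] at hv h1 ⊢
    omega
  exact ((Set.finite_univ.prod (Set.finite_Iio _)).subset h).to_subtype

theorem exists_period (T : Tri D) (c : D → ℕ) (hc : T.Match c) :
    ∃ P : ℕ, 0 < P ∧ ∀ d i, i < T.num c d → (T.snext c)^[P] (d, i) = (d, i) := by
  have hfin := fin_strands T c
  let f : {v : D × ℕ // v.2 < T.num c v.1} → {v : D × ℕ // v.2 < T.num c v.1} :=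
    fun v => ⟨T.snext c v.1, snext_lt T c hc v.1 v.2⟩
  have hinj : Function.Injective f := by
    intro v w h
    exact Subtype.ext (snext_inj T c hc v.1 w.1 v.2 w.2 (congrArg Subtype.val h))
  let e : Equiv.Perm {v : D × ℕ // v.2 < T.num c v.1} :=
    Equiv.ofBijective f (Finite.injective_iff_bijective.1 hinj)
  refine ⟨orderOf e, orderOf_pos e, ?_⟩
  intro d i hi
  have h1 : (e ^ orderOf e) ⟨(d, i), hi⟩ = ⟨(d, i), hi⟩ := by
    rw [pow_orderOf_eq_one]
    rfl
  rw [← Equiv.Perm.iterate_eq_pow] at h1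
  have h2 : Function.Semiconj (Subtype.val : {v : D × ℕ // v.2 < T.num c v.1} → D × ℕ) e
      (T.snext c) := fun v => rfl
  have h3 := (h2.iterate_right (orderOf e)).eq ⟨(d, i), hi⟩
  rw [h1] at h3
  exact h3.symm

/-- The trivial exponents. -/
def td0 (T : Tri D) (c : D → ℕ) (hc : T.Match c) (hn : T.Normal c) (P : ℕ) (hP : 0 < P)
    (per : ∀ d i, i < T.num c d → (T.snext c)^[P] (d, i) = (d, i)) : TD T where
  c := c
  hc := hc
  hn := hn
  P := P
  hP := hP
  per := per
  m := fun _ => 0
  m_next := fun _ _ _ => rfl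
  m_rev := fun _ _ _ => rfl
  sgn := Or.inl fun _ => le_rfl

theorem tr_comm (g h : SL) : tr (g * h) = tr (h * g) := by
  unfold tr
  simp only [Matrix.SpecialLinearGroup.coe_mul, Matrix.mul_apply, Fin.sum_univ_two]
  ring

theorem tr_inv (g : SL) : tr g⁻¹ = tr g := by
  unfold tr
  rw [Matrix.SpecialLinearGroup.coe_inv, Matrix.adjugate_fin_two]
  simp only [Matrix.of_apply, Matrix.cons_val', Matrix.cons_val_zero, Matrix.cons_val_one,
    Matrix.cons_val_fin_one]
  ring

/-- Twice the logarithm of the larger eigenvalue of the holonomy of a strand. -/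
def LL (T : Tri D) (c : D → ℕ) (P : ℕ) (x : D → ℝ) (v : D × ℕ) : ℝ :=
  2 * log (mu (tr (T.hol x (T.itin c P v) v.1)))

theorem prod_entry (g h : SL) (a b : Fin 2) :
    (g * h).1 a b = g.1 a 0 * h.1 0 b + g.1 a 1 * h.1 1 b := by
  simp [Matrix.mul_apply, Fin.sum_univ_two]

theorem prod_bounds (M : ℕ → SL) (a u : ℕ → ℝ) (N : ℕ) (h0 : ∀ i < N, ∀ p q, 0 ≤ (M i).1 p q)
    (ha : ∀ i < N, 0 < a i) (ha' : ∀ i < N, a i ≤ (M i).1 0 0)
    (hu : ∀ i < N, 0 < u i) (hu' : ∀ i < N, ∀ p q, (M i).1 p q ≤ u i) :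
    ∀ k ≤ N, (∀ p q, 0 ≤ (((List.range k).map M).prod).1 p q) ∧
      0 < ∏ i ∈ Finset.range k, a i ∧
      ∏ i ∈ Finset.range k, a i ≤ (((List.range k).map M).prod).1 0 0 ∧
      0 < ∏ i ∈ Finset.range k, u i ∧
      ∀ p q, (((List.range k).map M).prod).1 p q ≤ 2 ^ k * ∏ i ∈ Finset.range k, u i := by
  intro k
  induction k with
  | zero =>
    intro _
    simp only [List.range_zero, List.map_nil, List.prod_nil, Matrix.SpecialLinearGroup.coe_one,
      Finset.range_zero, Finset.prod_empty, pow_zero, mul_one]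
    refine ⟨?_, one_pos, ?_, one_pos, ?_⟩
    · intro p q
      fin_cases p <;> fin_cases q <;> simp
    · simp
    · intro p q
      fin_cases p <;> fin_cases q <;> simp
  | succ k ih =>
    intro hk
    obtain ⟨i1, i2, i3, i4, i5⟩ := ih (by omega)
    have hkN : k < N := by omega
    simp only [List.range_succ, List.map_append, List.map_cons, List.map_nil, List.prod_append,
      List.prod_cons, List.prod_nil, mul_one, Finset.prod_range_succ]
    set Q := ((List.range k).map M).prod with hQ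
    refine ⟨?_, mul_pos i2 (ha k hkN), ?_, mul_pos i4 (hu k hkN), ?_⟩
    · intro p q
      rw [prod_entry]
      have := i1 p 0
      have := i1 p 1
      have := h0 k hkN 0 q
      have := h0 k hkN 1 q
      positivity
    · rw [prod_entry]
      have e1 := i1 0 1
      have e2 := h0 k hkN 1 0
      have e3 : (∏ i ∈ Finset.range k, a i) * a k ≤ Q.1 0 0 * (M k).1 0 0 :=
        mul_le_mul i3 (ha' k hkN) (ha k hkN).le (i1 0 0)
      have e4 : 0 ≤ Q.1 0 1 * (M k).1 1 0 := mul_nonneg e1 e2
      linarith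
    · intro p q
      rw [prod_entry]
      have e0 : (0 : ℝ) ≤ 2 ^ k * ∏ i ∈ Finset.range k, u i := by positivity
      have e1 : Q.1 p 0 * (M k).1 0 q ≤ (2 ^ k * ∏ i ∈ Finset.range k, u i) * u k :=
        mul_le_mul (i5 p 0) (hu' k hkN 0 q) (h0 k hkN 0 q) e0
      have e2 : Q.1 p 1 * (M k).1 1 q ≤ (2 ^ k * ∏ i ∈ Finset.range k, u i) * u k :=
        mul_le_mul (i5 p 1) (hu' k hkN 1 q) (h0 k hkN 1 q) e0
      calc _ ≤ (2 ^ k * ∏ i ∈ Finset.range k, u i) * u k +
            (2 ^ k * ∏ i ∈ Finset.range k, u i) * u k := add_le_add e1 e2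
        _ = _ := by rw [pow_succ]; ring

theorem lim_of_bounds (f : ℕ → ℝ) (A K1 K2 : ℝ) (h1 : ∀ n : ℕ, n * A + K1 ≤ f n)
    (h2 : ∀ n : ℕ, f n ≤ n * A + K2) : Tendsto (fun n : ℕ => f n / n) atTop (𝓝 A) := by
  have t1 : Tendsto (fun n : ℕ => A + K1 / n) atTop (𝓝 A) := by
    have := (tendsto_const_nhds (x := A)).add (tendsto_const_div_atTop_nhds_zero_nat K1)
    simpa using this
  have t2 : Tendsto (fun n : ℕ => A + K2 / n) atTop (𝓝 A) := by
    have := (tendsto_const_nhds (x := A)).add (tendsto_const_div_atTop_nhds_zero_nat K2)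
    simpa using this
  refine tendsto_of_tendsto_of_tendsto_of_le_of_le' t1 t2 ?_ ?_
  · filter_upwards [eventually_gt_atTop 0] with n hn
    have hn' : (0 : ℝ) < n := by exact_mod_cast hn
    rw [le_div_iff₀ hn', add_mul, div_mul_cancel₀ _ hn'.ne']
    linarith [h1 n]
  · filter_upwards [eventually_gt_atTop 0] with n hn
    have hn' : (0 : ℝ) < n := by exact_mod_cast hn
    rw [div_le_iff₀ hn', add_mul, div_mul_cancel₀ _ hn'.ne']
    linarith [h2 n]

/-- Piece S_asym. -/
theorem asym (hstr : S_str) (hpos : S_pos) : S_asym := by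
  intro D _ _ T x hx c hc hn
  obtain ⟨P, hP, per⟩ := exists_period T c hc
  let t0 : TD T := td0 T c hc hn P hP per
  -- facts about the strands
  have spos : ∀ v : D × ℕ, v.2 < T.num c v.1 →
      ∀ a b, 0 < (T.hol x (T.itin c P v) v.1).1 a b := by
    intro v hv
    exact (hpos T t0 x v.1 v.2 hv).2.2
  have sL : ∀ v : D × ℕ, v.2 < T.num c v.1 → 0 < LL T c P x v := by
    intro v hv
    have := Real.log_pos (one_lt_mu (tr_gt _ (spos v hv)))
    unfold LL
    linarith
  have Lnext : ∀ v : D × ℕ, v.2 < T.num c v.1 → LL T c P x (T.snext c v) = LL T c P x v := by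
    intro v hv
    have h := (hstr T t0 x hx v.1 v.2 hv).2.1
    have h' : T.hol x (T.itin c P v) v.1 * step (Tri.sbit c v) (x (T.turn (Tri.sbit c v) v.1)) =
      step (Tri.sbit c v) (x (T.turn (Tri.sbit c v) v.1)) *
        T.hol x (T.itin c P (T.snext c v)) (T.snext c v).1 := h
    have e : tr (T.hol x (T.itin c P (T.snext c v)) (T.snext c v).1) =
        tr (T.hol x (T.itin c P v) v.1) := by
      set s := step (Tri.sbit c v) (x (T.turn (Tri.sbit c v) v.1)) with hs
      have e1 : T.hol x (T.itin c P (T.snext c v)) (T.snext c v).1 =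
          s⁻¹ * (T.hol x (T.itin c P v) v.1 * s) := by
        rw [h']
        group
      rw [e1, tr_comm]
      congr 1
      group
    unfold LL
    rw [e]
  have Lrev : ∀ v : D × ℕ, v.2 < T.num c v.1 → LL T c P x (rev T c v) = LL T c P x v := by
    intro v hv
    have h := (hstr T t0 x hx v.1 v.2 hv).2.2.1
    have h' : T.hol x (T.itin c P (rev T c v)) (rev T c v).1 =
      (E (x v.1))⁻¹ * (T.hol x (T.itin c P v) v.1)⁻¹ * E (x v.1) := h
    have e : tr (T.hol x (T.itin c P (rev T c v)) (rev T c v).1) =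
        tr (T.hol x (T.itin c P v) v.1) := by
      rw [h', ← tr_inv (T.hol x (T.itin c P v) v.1), tr_comm]
      congr 1
      group
    unfold LL
    rw [e]
  -- the exponents
  let m : ℕ → D × ℕ → ℤ := fun n v =>
    if v.2 < T.num c v.1 then ((⌊(n : ℝ) / LL T c P x v⌋₊ : ℕ) : ℤ) else 0
  have hm0 : ∀ n v, 0 ≤ m n v := by
    intro n v
    show (0 : ℤ) ≤ if v.2 < T.num c v.1 then ((⌊(n : ℝ) / LL T c P x v⌋₊ : ℕ) : ℤ) else 0
    split_ifs
    · exact Int.natCast_nonneg _
    · exact le_rfl
  let t : ℕ → TD T := fun n =>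
    { c := c
      hc := hc
      hn := hn
      P := P
      hP := hP
      per := per
      m := m n
      m_next := by
        intro d i hi
        show (if (T.snext c (d, i)).2 < T.num c (T.snext c (d, i)).1 then
          ((⌊(n : ℝ) / LL T c P x (T.snext c (d, i))⌋₊ : ℕ) : ℤ) else 0) =
          if i < T.num c d then ((⌊(n : ℝ) / LL T c P x (d, i)⌋₊ : ℕ) : ℤ) else 0
        rw [if_pos (snext_lt T c hc (d, i) hi), if_pos hi, Lnext (d, i) hi]
      m_rev := by
        intro d i hi
        show (if (rev T c (d, i)).2 < T.num c (rev T c (d, i)).1 then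
          ((⌊(n : ℝ) / LL T c P x (rev T c (d, i))⌋₊ : ℕ) : ℤ) else 0) =
          if i < T.num c d then ((⌊(n : ℝ) / LL T c P x (d, i)⌋₊ : ℕ) : ℤ) else 0
        rw [if_pos (rev_lt T c hc (d, i) hi), if_pos hi, Lrev (d, i) hi]
      sgn := Or.inl (hm0 n) }
  refine ⟨t, fun _ => rfl, hm0, ?_⟩
  -- the lambda lengths
  have key : ∀ d, Tendsto (fun n : ℕ => (t n).Lam x d / n) atTop (𝓝 ((T.num c d : ℝ) / 2)) := by
    intro d
    have hex : ∀ i : ℕ, ∃ p : ℝ × ℝ, 0 < p.1 ∧ 0 < p.2 ∧ (i < T.num c d → ∀ k : ℕ,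
        p.1 * mu (tr (T.hol x (T.itin c P (d, i)) d)) ^ k ≤
          ((T.hol x (T.itin c P (d, i)) d) ^ k).1 0 0 ∧
        ∀ a b, 0 ≤ ((T.hol x (T.itin c P (d, i)) d) ^ k).1 a b ∧
          ((T.hol x (T.itin c P (d, i)) d) ^ k).1 a b ≤
            p.2 * mu (tr (T.hol x (T.itin c P (d, i)) d)) ^ k) := by
      intro i
      by_cases hi : i < T.num c d
      · obtain ⟨-, c1, c2, h1, h2, h3⟩ := pow (T.hol x (T.itin c P (d, i)) d) (spos (d, i) hi)
        exact ⟨(c1, c2), h1, h2, fun _ => h3⟩
      · exact ⟨(1, 1), one_pos, one_pos, fun h => absurd h hi⟩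
    choose p hp1 hp2 hp using hex
    set r : ℕ → ℝ := fun i => mu (tr (T.hol x (T.itin c P (d, i)) d)) with hr
    have hr1 : ∀ i < T.num c d, 1 < r i := fun i hi => one_lt_mu (tr_gt _ (spos (d, i) hi))
    set k : ℕ → ℕ → ℕ := fun n i => ⌊(n : ℝ) / LL T c P x (d, i)⌋₊ with hk
    have hLr : ∀ i, LL T c P x (d, i) = 2 * log (r i) := fun i => rfl
    have hstrm : ∀ n i, i < T.num c d →
        (t n).str x (d, i) ^ (t n).m (d, i) = (T.hol x (T.itin c P (d, i)) d) ^ (k n i) := by
      intro n i hi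
      have e1 : (t n).m (d, i) = ((k n i : ℕ) : ℤ) := by
        show (if i < T.num c d then ((⌊(n : ℝ) / LL T c P x (d, i)⌋₊ : ℕ) : ℤ) else 0) = _
        rw [if_pos hi]
      rw [e1, zpow_natCast]
      rfl
    have hb : ∀ n : ℕ,
        0 < ∏ i ∈ Finset.range (T.num c d), ((p i).1 * r i ^ k n i) ∧
        ∏ i ∈ Finset.range (T.num c d), ((p i).1 * r i ^ k n i) ≤ ((t n).H x d).1 0 0 ∧
        ((t n).H x d).1 0 0 ≤
          2 ^ (T.num c d) * ∏ i ∈ Finset.range (T.num c d), ((p i).2 * r i ^ k n i) := by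
      intro n
      have := prod_bounds (fun i => (t n).str x (d, i) ^ (t n).m (d, i))
        (fun i => (p i).1 * r i ^ k n i) (fun i => (p i).2 * r i ^ k n i) (T.num c d)
        (fun i hi a b => by
          show 0 ≤ ((t n).str x (d, i) ^ (t n).m (d, i)).1 a b
          rw [hstrm n i hi]
          exact ((hp i hi (k n i)).2 a b).1)
        (fun i hi => mul_pos (hp1 i) (pow_pos (lt_trans one_pos (hr1 i hi)) _))
        (fun i hi => by
          show _ ≤ ((t n).str x (d, i) ^ (t n).m (d, i)).1 0 0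
          rw [hstrm n i hi]
          exact (hp i hi (k n i)).1)
        (fun i hi => mul_pos (hp2 i) (pow_pos (lt_trans one_pos (hr1 i hi)) _))
        (fun i hi a b => by
          show ((t n).str x (d, i) ^ (t n).m (d, i)).1 a b ≤ _
          rw [hstrm n i hi]
          exact ((hp i hi (k n i)).2 a b).2)
        (T.num c d) le_rfl
      exact ⟨this.2.1, this.2.2.1, this.2.2.2.2 0 0⟩
    have hkr : ∀ (n i : ℕ), i < T.num c d →
        (n : ℝ) / 2 - log (r i) ≤ k n i * log (r i) ∧ k n i * log (r i) ≤ (n : ℝ) / 2 := by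
      intro n i hi
      have hl : 0 < LL T c P x (d, i) := sL (d, i) hi
      have hnn : (0 : ℝ) ≤ (n : ℝ) / LL T c P x (d, i) := by positivity
      have f1 := Nat.floor_le hnn
      have f2 := (Nat.lt_floor_add_one ((n : ℝ) / LL T c P x (d, i))).le
      rw [le_div_iff₀ hl] at f1
      rw [div_le_iff₀ hl] at f2
      have hL := hLr i
      change (k n i : ℝ) * LL T c P x (d, i) ≤ n at f1
      change (n : ℝ) ≤ ((k n i : ℝ) + 1) * LL T c P x (d, i) at f2
      rw [hL] at f1 f2
      constructor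
      · linarith
      · linarith
    have hlogp : ∀ (q : ℕ → ℝ), (∀ i, 0 < q i) → ∀ n,
        log (∏ i ∈ Finset.range (T.num c d), (q i * r i ^ k n i)) =
          ∑ i ∈ Finset.range (T.num c d), (log (q i) + k n i * log (r i)) := by
      intro q hq n
      rw [Real.log_prod]
      · refine Finset.sum_congr rfl fun i hi => ?_
        have hri := lt_trans one_pos (hr1 i (Finset.mem_range.1 hi))
        rw [Real.log_mul (hq i).ne' (pow_pos hri _).ne', Real.log_pow]
      · intro i hi
        have hri := lt_trans one_pos (hr1 i (Finset.mem_range.1 hi))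
        exact (mul_pos (hq i) (pow_pos hri _)).ne'
    refine lim_of_bounds _ _
      (∑ i ∈ Finset.range (T.num c d), (log (p i).1 - log (r i)))
      (T.num c d * log 2 + ∑ i ∈ Finset.range (T.num c d), log (p i).2) ?_ ?_
    · intro n
      obtain ⟨b1, b2, b3⟩ := hb n
      have e1 : log (∏ i ∈ Finset.range (T.num c d), ((p i).1 * r i ^ k n i)) ≤
          (t n).Lam x d := Real.log_le_log b1 b2
      rw [hlogp (fun i => (p i).1) hp1 n] at e1
      refine le_trans ?_ e1
      calc (n : ℝ) * ((T.num c d : ℝ) / 2) +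
            ∑ i ∈ Finset.range (T.num c d), (log (p i).1 - log (r i))
          = ∑ i ∈ Finset.range (T.num c d), (log (p i).1 + ((n : ℝ) / 2 - log (r i))) := by
            have : ∀ i, log (p i).1 + ((n : ℝ) / 2 - log (r i)) =
              (n : ℝ) / 2 + (log (p i).1 - log (r i)) := fun i => by ring
            simp only [this, Finset.sum_add_distrib, Finset.sum_const, Finset.card_range,
              nsmul_eq_mul]
            ring
        _ ≤ _ := Finset.sum_le_sum fun i hi => by
            have := (hkr n i (Finset.mem_range.1 hi)).1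
            linarith
    · intro n
      obtain ⟨b1, b2, b3⟩ := hb n
      have hpos2 : 0 < ∏ i ∈ Finset.range (T.num c d), ((p i).2 * r i ^ k n i) := by
        refine Finset.prod_pos fun i hi => ?_
        have hri := lt_trans one_pos (hr1 i (Finset.mem_range.1 hi))
        exact mul_pos (hp2 i) (pow_pos hri _)
      have e1 : (t n).Lam x d ≤
          log (2 ^ (T.num c d) * ∏ i ∈ Finset.range (T.num c d), ((p i).2 * r i ^ k n i)) :=
        Real.log_le_log (lt_of_lt_of_le b1 b2) b3
      rw [Real.log_mul (by positivity) hpos2.ne', Real.log_pow, hlogp (fun i => (p i).2) hp2 n]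
        at e1
      refine le_trans e1 ?_
      have e2 : ∑ i ∈ Finset.range (T.num c d), (log (p i).2 + k n i * log (r i)) ≤
          ∑ i ∈ Finset.range (T.num c d), (log (p i).2 + (n : ℝ) / 2) :=
        Finset.sum_le_sum fun i hi => by
          have := (hkr n i (Finset.mem_range.1 hi)).2
          linarith
      have e3 : ∑ i ∈ Finset.range (T.num c d), (log (p i).2 + (n : ℝ) / 2) =
          ∑ i ∈ Finset.range (T.num c d), log (p i).2 + T.num c d * ((n : ℝ) / 2) := by
        simp only [Finset.sum_add_distrib, Finset.sum_const, Finset.card_range, nsmul_eq_mul]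
      rw [e3] at e2
      linarith
  intro d
  have h1 := key (T.sg d)
  have h2 := key (T.sg (T.sg d))
  have h3 := key (T.sg (T.io d))
  have h4 := key (T.sg (T.sg (T.io d)))
  have h5 := tendsto_const_div_atTop_nhds_zero_nat (x d)
  have h6 := (((h5.add h1).sub h2).add h3).sub h4
  have e1 : (0 : ℝ) + (T.num c (T.sg d) : ℝ) / 2 - (T.num c (T.sg (T.sg d)) : ℝ) / 2 +
      (T.num c (T.sg (T.io d)) : ℝ) / 2 - (T.num c (T.sg (T.sg (T.io d))) : ℝ) / 2 =
      dirc T c d := by
    unfold dirc
    ring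
  rw [e1] at h6
  refine h6.congr fun n => ?_
  unfold TD.tw
  ring

end Run7.h113.DG
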