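import Pool.Agent.Run7.h113.DG.Asym
import Pool.Agent.Run7.h568.DG.CIface

/-!
# Asymptotics of the twists, closed surfaces (piece C_asym of project DG)
-/

open Real Matrix Filter Topology

noncomputable section

namespace Run7.h113.DG

open Run7.h568.DG

variable {D : Type} [Fintype D] [DecidableEq D]

theorem exists_period' (T : Tri D) (c : D → ℕ) (f : D × ℕ → D × ℕ)
    (hf : ∀ v : D × ℕ, v.2 < T.num c v.1 → (f v).2 < T.num c (f v).1)
    (hfi : ∀ v w : D × ℕ, v.2 < T.num c v.1 → w.2 < T.num c w.1 → f v = f w → v = w) :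
    ∃ Q : ℕ, 0 < Q ∧ ∀ d i, i < T.num c d → f^[Q] (d, i) = (d, i) := by
  have hfin := fin_strands T c
  let F : {v : D × ℕ // v.2 < T.num c v.1} → {v : D × ℕ // v.2 < T.num c v.1} :=
    fun v => ⟨f v.1, hf v.1 v.2⟩
  have hinj : Function.Injective F := by
    intro v w h
    exact Subtype.ext (hfi v.1 w.1 v.2 w.2 (congrArg Subtype.val h))
  let e : Equiv.Perm {v : D × ℕ // v.2 < T.num c v.1} :=
    Equiv.ofBijective F (Finite.injective_iff_bijective.1 hinj)
  refine ⟨orderOf e, orderOf_pos e, ?_⟩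
  intro d i hi
  have h1 : (e ^ orderOf e) ⟨(d, i), hi⟩ = ⟨(d, i), hi⟩ := by
    rw [pow_orderOf_eq_one]
    rfl
  rw [← Equiv.Perm.iterate_eq_pow] at h1
  have h2 : Function.Semiconj (Subtype.val : {v : D × ℕ // v.2 < T.num c v.1} → D × ℕ) e f :=
    fun v => rfl
  have h3 := (h2.iterate_right (orderOf e)).eq ⟨(d, i), hi⟩
  rw [h1] at h3
  exact h3.symm

/-- The exponent of a matrix. -/
def kk (g : SL) (n : ℕ) : ℕ := ⌊(n : ℝ) / (2 * log (mu (tr g)))⌋₊

theorem kk_bounds (g : SL) (hg : ∀ a b, 0 < g.1 a b) (n : ℕ) :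
    exp ((n : ℝ) / 2) / mu (tr g) ≤ mu (tr g) ^ kk g n ∧
      mu (tr g) ^ kk g n ≤ exp ((n : ℝ) / 2) := by
  have h1 := one_lt_mu (tr_gt g hg)
  have h0 : 0 < mu (tr g) := lt_trans one_pos h1
  have hl : 0 < log (mu (tr g)) := Real.log_pos h1
  have hl2 : 0 < 2 * log (mu (tr g)) := by linarith
  have hnn : (0 : ℝ) ≤ (n : ℝ) / (2 * log (mu (tr g))) := by positivity
  have f1 := Nat.floor_le hnn
  have f2 := (Nat.lt_floor_add_one ((n : ℝ) / (2 * log (mu (tr g))))).le
  rw [le_div_iff₀ hl2] at f1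
  rw [div_le_iff₀ hl2] at f2
  change (kk g n : ℝ) * (2 * log (mu (tr g))) ≤ n at f1
  change (n : ℝ) ≤ ((kk g n : ℝ) + 1) * (2 * log (mu (tr g))) at f2
  have e : ∀ k : ℕ, mu (tr g) ^ k = exp (k * log (mu (tr g))) := by
    intro k
    rw [Real.exp_nat_mul, Real.exp_log h0]
  constructor
  · rw [div_le_iff₀ h0, ← pow_succ, e]
    apply Real.exp_le_exp.2
    push_cast
    linarith
  · rw [e]
    apply Real.exp_le_exp.2
    linarith

theorem one_bounds (g : SL) (hg : ∀ a b, 0 < g.1 a b) : ∃ c C : ℝ, 0 < c ∧ 0 < C ∧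
    ∀ n : ℕ, c * exp ((n : ℝ) / 2) ≤ (g ^ kk g n).1 0 0 ∧
      ∀ a b, 0 ≤ (g ^ kk g n).1 a b ∧ (g ^ kk g n).1 a b ≤ C * exp ((n : ℝ) / 2) := by
  have h0 : 0 < mu (tr g) := lt_trans one_pos (one_lt_mu (tr_gt g hg))
  obtain ⟨-, c, C, hc, hC, h⟩ := pow g hg
  change ∀ m : ℕ, c * (mu (tr g)) ^ m ≤ (g ^ m).1 0 0 ∧
    ∀ a b, 0 ≤ (g ^ m).1 a b ∧ (g ^ m).1 a b ≤ C * (mu (tr g)) ^ m at h
  refine ⟨c / mu (tr g), C, by positivity, hC, ?_⟩
  intro n
  obtain ⟨k1, k2⟩ := kk_bounds g hg n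
  obtain ⟨h1, h2⟩ := h (kk g n)
  constructor
  · refine le_trans ?_ h1
    calc c / mu (tr g) * exp ((n : ℝ) / 2) = c * (exp ((n : ℝ) / 2) / mu (tr g)) := by ring
      _ ≤ _ := by gcongr
  · intro a b
    refine ⟨(h2 a b).1, (h2 a b).2.trans ?_⟩
    gcongr

theorem one_lower (g : SL) (hg : ∀ a b, 0 < g.1 a b) : ∃ c : ℝ, 0 < c ∧
    ∀ n : ℕ, 0 < kk g n → c * exp ((n : ℝ) / 2) ≤ (g ^ kk g n).1 0 1 := by
  obtain ⟨v0, v1, hv0, hv1, e0, e1⟩ := eigvec g hg
  have hmu : 0 < mu (tr g) := lt_trans one_pos (one_lt_mu (tr_gt g hg))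
  set r := mu (tr g) with hr
  set k := min (g.1 0 1 / v0) (g.1 1 1 / v1) with hk
  have hk0 : 0 < k := lt_min (div_pos (hg 0 1) hv0) (div_pos (hg 1 1) hv1)
  have hka : k * v0 ≤ g.1 0 1 := (le_div_iff₀ hv0).1 (min_le_left _ _)
  have hkb : k * v1 ≤ g.1 1 1 := (le_div_iff₀ hv1).1 (min_le_right _ _)
  refine ⟨k * v0 / r / r, by positivity, ?_⟩
  intro n hn
  obtain ⟨k1, -⟩ := kk_bounds g hg n
  rw [← hr] at k1
  obtain ⟨m, hm⟩ : ∃ m, kk g n = m + 1 := ⟨kk g n - 1, by omega⟩
  rw [hm] at k1 ⊢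
  have h1 := pow_eig g e0 e1 m 0
  simp only [if_true] at h1
  have n0 := pow_nonneg g hg m 0 0
  have n1 := pow_nonneg g hg m 0 1
  rw [pow_entry]
  calc k * v0 / r / r * exp ((n : ℝ) / 2) = k * v0 / r * (exp ((n : ℝ) / 2) / r) := by ring
    _ ≤ k * v0 / r * r ^ (m + 1) := by gcongr
    _ = k * (r ^ m * v0) := by rw [pow_succ]; field_simp
    _ = (g ^ m).1 0 0 * (k * v0) + (g ^ m).1 0 1 * (k * v1) := by rw [← h1]; ring
    _ ≤ _ := by gcongr

theorem prod_exp_bounds (M : ℕ → SL) (N : ℕ) (hM : ∀ i < N, ∀ a b, 0 < (M i).1 a b) :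
    ∃ c C : ℝ, 0 < c ∧ 0 < C ∧ ∀ n : ℕ,
      c * exp ((n : ℝ) / 2) ^ N ≤
        (((List.range N).map (fun i => M i ^ kk (M i) n)).prod).1 0 0 ∧
      ∀ a b, 0 ≤ (((List.range N).map (fun i => M i ^ kk (M i) n)).prod).1 a b ∧
        (((List.range N).map (fun i => M i ^ kk (M i) n)).prod).1 a b ≤
          C * exp ((n : ℝ) / 2) ^ N := by
  have hex : ∀ i : ℕ, ∃ p : ℝ × ℝ, 0 < p.1 ∧ 0 < p.2 ∧ (i < N → ∀ n : ℕ,
      p.1 * exp ((n : ℝ) / 2) ≤ (M i ^ kk (M i) n).1 0 0 ∧
      ∀ a b, 0 ≤ (M i ^ kk (M i) n).1 a b ∧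
        (M i ^ kk (M i) n).1 a b ≤ p.2 * exp ((n : ℝ) / 2)) := by
    intro i
    by_cases hi : i < N
    · obtain ⟨c1, c2, h1, h2, h3⟩ := one_bounds (M i) (hM i hi)
      exact ⟨(c1, c2), h1, h2, fun _ => h3⟩
    · exact ⟨(1, 1), one_pos, one_pos, fun h => absurd h hi⟩
  choose p hp1 hp2 hp using hex
  refine ⟨∏ i ∈ Finset.range N, (p i).1, 2 ^ N * ∏ i ∈ Finset.range N, (p i).2,
    Finset.prod_pos fun i _ => hp1 i, mul_pos (by positivity) (Finset.prod_pos fun i _ => hp2 i),
    ?_⟩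
  intro n
  have he : (0 : ℝ) < exp ((n : ℝ) / 2) := Real.exp_pos _
  obtain ⟨q1, -, q3, -, q5⟩ := prod_bounds (fun i => M i ^ kk (M i) n)
    (fun i => (p i).1 * exp ((n : ℝ) / 2)) (fun i => (p i).2 * exp ((n : ℝ) / 2)) N
    (fun i hi a b => ((hp i hi n).2 a b).1) (fun i _ => mul_pos (hp1 i) he)
    (fun i hi => (hp i hi n).1) (fun i _ => mul_pos (hp2 i) he)
    (fun i hi a b => ((hp i hi n).2 a b).2) N le_rfl
  rw [Finset.prod_mul_distrib, Finset.prod_const, Finset.card_range] at q3 q5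
  refine ⟨q3, fun a b => ⟨q1 a b, (q5 a b).trans (le_of_eq ?_)⟩⟩
  ring

theorem lim_log (X : ℕ → ℝ) (N : ℕ) (c C : ℝ) (hc : 0 < c) (hC : 0 < C)
    (h1 : ∀ᶠ n : ℕ in atTop, c * exp ((n : ℝ) / 2) ^ N ≤ X n)
    (h2 : ∀ᶠ n : ℕ in atTop, X n ≤ C * exp ((n : ℝ) / 2) ^ N) :
    Tendsto (fun n : ℕ => log (X n) / n) atTop (𝓝 ((N : ℝ) / 2)) := by
  have t1 : Tendsto (fun n : ℕ => (N : ℝ) / 2 + log c / n) atTop (𝓝 ((N : ℝ) / 2)) := by
    have := (tendsto_const_nhds (x := (N : ℝ) / 2)).add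
      (tendsto_const_div_atTop_nhds_zero_nat (log c))
    simpa using this
  have t2 : Tendsto (fun n : ℕ => (N : ℝ) / 2 + log C / n) atTop (𝓝 ((N : ℝ) / 2)) := by
    have := (tendsto_const_nhds (x := (N : ℝ) / 2)).add
      (tendsto_const_div_atTop_nhds_zero_nat (log C))
    simpa using this
  have el : ∀ (q : ℝ), 0 < q → ∀ n : ℕ, log (q * exp ((n : ℝ) / 2) ^ N) =
      log q + N * ((n : ℝ) / 2) := by
    intro q hq n
    rw [Real.log_mul hq.ne' (pow_pos (Real.exp_pos _) _).ne', Real.log_pow, Real.log_exp]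
  refine tendsto_of_tendsto_of_tendsto_of_le_of_le' t1 t2 ?_ ?_
  · filter_upwards [eventually_gt_atTop 0, h1] with n hn h
    have hn' : (0 : ℝ) < n := by exact_mod_cast hn
    have hlog := Real.log_le_log (by positivity) h
    rw [el c hc] at hlog
    rw [le_div_iff₀ hn', add_mul, div_mul_cancel₀ _ hn'.ne']
    linarith
  · filter_upwards [eventually_gt_atTop 0, h1, h2] with n hn h h'
    have hn' : (0 : ℝ) < n := by exact_mod_cast hn
    have hX : 0 < X n := lt_of_lt_of_le (by positivity) h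
    have hlog := Real.log_le_log hX h'
    rw [el C hC] at hlog
    rw [div_le_iff₀ hn', add_mul, div_mul_cancel₀ _ hn'.ne']
    linarith

theorem lim_bdd (Y : ℕ → ℝ) (K : ℝ) (h1 : ∀ᶠ n : ℕ in atTop, 0 ≤ Y n)
    (h2 : ∀ᶠ n : ℕ in atTop, Y n ≤ K) : Tendsto (fun n : ℕ => Y n / n) atTop (𝓝 0) := by
  refine tendsto_of_tendsto_of_tendsto_of_le_of_le' tendsto_const_nhds
    (tendsto_const_div_atTop_nhds_zero_nat K) ?_ ?_
  · filter_upwards [h1] with n hn
    positivity
  · filter_upwards [h2] with n hn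
    gcongr

/-- Piece C_asym. -/
theorem Casym (hcomb : C_comb) (hpos : C_pos) (hbd : C_bd) (heig : C_eig) (hstr : C_str)
    (hJ : C_J) : C_asym := by
  intro D _ _ T P p hp c a ha hc hn
  -- a common period
  have hsn : ∀ w : D × ℕ, w.2 < T.num c w.1 →
      (P.snext c a w).2 < T.num c (P.snext c a w).1 := fun w hw =>
    (hcomb T P c a hc w hw).2.2.2.2.2
  have hcr : ∀ w : D × ℕ, w.2 < T.num c w.1 →
      (P.cross c a w).2 < T.num c (P.cross c a w).1 := fun w hw =>
    (hcomb T P c a hc w hw).2.2.2.1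
  have hinj : ∀ v w : D × ℕ, v.2 < T.num c v.1 → w.2 < T.num c w.1 →
      P.snext c a v = P.snext c a w → v = w := by
    intro v w hv hw h
    have a1 := hcomb T P c a hc v hv
    have a2 := hcomb T P c a hc w hw
    have b1 := (hcomb T P c a hc _ a1.1).2.2.2.2.1
    have b2 := (hcomb T P c a hc _ a2.1).2.2.2.2.1
    have h' : P.cross c a (Portal.out (T := T) c v) = P.cross c a (Portal.out (T := T) c w) := h
    rw [h', b2] at b1
    have h3 := congrArg (Portal.out (T := T) c) b1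
    rw [a1.2.1, a2.2.1] at h3
    exact h3.symm
  obtain ⟨Q, hQ, per⟩ := exists_period' T c (P.snext c a) hsn hinj
  have hio : ∀ d, p.1 (T.io d) = p.1 d := hp.1
  let t0 : PTD P :=
    { c := c
      a := a
      ha := ha
      hc := hc
      hn := hn
      Q := Q
      hQ := hQ
      per := per
      m := fun _ => 0
      m_next := fun _ _ _ => rfl
      m_rev := fun _ _ _ => rfl
      sgn := Or.inl fun _ => le_rfl }
  -- the holonomies of the strands
  let g : D × ℕ → SL := fun w => P.hol p (P.itin c a Q w) w.1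
  have gpos : ∀ w : D × ℕ, w.2 < T.num c w.1 → ∀ i j, 0 < (g w).1 i j := by
    intro w hw
    exact (hpos T P t0 p hp w.1 w.2 hw).2.2.2.2
  have gnext : ∀ w : D × ℕ, w.2 < T.num c w.1 → tr (g (P.snext c a w)) = tr (g w) := by
    intro w hw
    have h := (hstr T P t0 p hio w.1 w.2 hw).1
    have h' : g w * P.hol p (P.sletters c a w) w.1 =
      P.hol p (P.sletters c a w) w.1 * g (P.snext c a w) := h
    set s := P.hol p (P.sletters c a w) w.1 with hs
    have e1 : g (P.snext c a w) = s⁻¹ * (g w * s) := by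
      rw [h']
      group
    rw [e1, tr_comm]
    congr 1
    group
  have gcross : ∀ w : D × ℕ, w.2 < T.num c w.1 → tr (g (P.cross c a w)) = tr (g w) := by
    intro w hw
    have h := (hstr T P t0 p hio w.1 w.2 hw).2.1
    have h' : g (P.cross c a w) = (P.xm p c a w)⁻¹ * (g w)⁻¹ * P.xm p c a w := h
    rw [h', ← tr_inv (g w), tr_comm]
    congr 1
    group
  -- the exponents
  let m : ℕ → D × ℕ → ℤ := fun n w => if w.2 < T.num c w.1 then ((kk (g w) n : ℕ) : ℤ) else 0
  have hm0 : ∀ n w, 0 ≤ m n w := by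
    intro n w
    show (0 : ℤ) ≤ if w.2 < T.num c w.1 then ((kk (g w) n : ℕ) : ℤ) else 0
    split_ifs
    · exact Int.natCast_nonneg _
    · exact le_rfl
  have kk_tr : ∀ (g1 g2 : SL) (n : ℕ), tr g1 = tr g2 → kk g1 n = kk g2 n := by
    intro g1 g2 n h
    unfold kk
    rw [h]
  let t : ℕ → PTD P := fun n =>
    { c := c
      a := a
      ha := ha
      hc := hc
      hn := hn
      Q := Q
      hQ := hQ
      per := per
      m := m n
      m_next := by
        intro d i hi
        show (if (P.snext c a (d, i)).2 < T.num c (P.snext c a (d, i)).1 then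
          ((kk (g (P.snext c a (d, i))) n : ℕ) : ℤ) else 0) =
          if i < T.num c d then ((kk (g (d, i)) n : ℕ) : ℤ) else 0
        rw [if_pos (hsn (d, i) hi), if_pos hi, kk_tr _ _ n (gnext (d, i) hi)]
      m_rev := by
        intro d i hi
        show (if (P.cross c a (d, i)).2 < T.num c (P.cross c a (d, i)).1 then
          ((kk (g (P.cross c a (d, i))) n : ℕ) : ℤ) else 0) =
          if i < T.num c d then ((kk (g (d, i)) n : ℕ) : ℤ) else 0
        rw [if_pos (hcr (d, i) hi), if_pos hi, kk_tr _ _ n (gcross (d, i) hi)]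
      sgn := Or.inl (hm0 n) }
  have hmt : ∀ n d i, i < T.num c d → (t n).m (d, i) = ((kk (g (d, i)) n : ℕ) : ℤ) := by
    intro n d i hi
    show (if i < T.num c d then ((kk (g (d, i)) n : ℕ) : ℤ) else 0) = _
    rw [if_pos hi]
  have hPd : ∀ n d N, N ≤ T.num c d → (t n).Pd p d N =
      ((List.range N).map (fun i => g (d, i) ^ kk (g (d, i)) n)).prod := by
    intro n d N hN
    unfold PTD.Pd
    congr 1
    refine List.map_congr_left fun i hi => ?_
    rw [hmt n d i (lt_of_lt_of_le (List.mem_range.1 hi) hN), zpow_natCast]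
    rfl
  -- number of strands through `α`
  have hav : a ≤ T.num c P.v := by
    have := hc.2.2
    omega
  -- the exponents of the strands crossing `α` are positive
  have hkpos : ∀ᶠ n : ℕ in atTop, ∀ k < a, 0 < kk (g (P.v, k)) n := by
    have h1 : ∀ k ∈ Finset.range a, ∀ᶠ n : ℕ in atTop, 0 < kk (g (P.v, k)) n := by
      intro k hk
      have hk' : k < T.num c P.v := lt_of_lt_of_le (Finset.mem_range.1 hk) hav
      have hl : 0 < 2 * log (mu (tr (g (P.v, k)))) := by
        have := Real.log_pos (one_lt_mu (tr_gt _ (gpos (P.v, k) hk')))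
        linarith
      filter_upwards [eventually_ge_atTop ⌈2 * log (mu (tr (g (P.v, k))))⌉₊] with n hn
      unfold kk
      rw [Nat.floor_pos, le_div_iff₀ hl, one_mul]
      exact (Nat.le_ceil _).trans (by exact_mod_cast hn)
    have h2 := (Filter.eventually_all_finset (Finset.range a)).2 h1
    filter_upwards [h2] with n hn k hk
    exact hn k (Finset.mem_range.2 hk)
  -- bounds for the tails
  obtain ⟨C0, hC0⟩ := hbd T P p hp c a Q
  set C1 := max C0 1 with hC1
  have hC1p : 0 < C1 := lt_of_lt_of_le one_pos (le_max_right _ _)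
  have hxi0 : ∀ n d, 0 ≤ (t n).xi p d := by
    intro n d
    obtain ⟨-, -, -, -, -, -, h7, -⟩ := heig T P (t n) p hp
    exact h7 (hm0 n) d
  have hxi1 : ∀ᶠ n : ℕ in atTop, ∀ d, (t n).xi p d ≤ C1 := by
    filter_upwards [hkpos] with n hn d
    refine (hC0 (t n) rfl rfl rfl (hm0 n) (fun k hk => ?_) d).trans (le_max_left _ _)
    rw [hmt n P.v k (lt_of_lt_of_le hk hav)]
    exact_mod_cast hn k hk
  -- the lambda lengths
  have hLam : ∀ d, Tendsto (fun n : ℕ => (t n).Lam p d / n) atTop (𝓝 ((T.num c d : ℝ) / 2)) := by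
    intro d
    obtain ⟨q, C, hq, hC, hb⟩ := prod_exp_bounds (fun i => g (d, i)) (T.num c d)
      (fun i hi => gpos (d, i) hi)
    have hH : ∀ n, (t n).H p d =
        ((List.range (T.num c d)).map (fun i => g (d, i) ^ kk (g (d, i)) n)).prod :=
      fun n => hPd n d _ le_rfl
    refine lim_log (fun n => (t n).la p d) (T.num c d) q ((1 + C1) * (1 + 2 * C1) * C) hq
      (by positivity) ?_ ?_
    · refine Eventually.of_forall fun n => ?_
      obtain ⟨b1, b2⟩ := hb n
      rw [← hH] at b1 b2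
      have x1 := hxi0 n d
      have x2 := hxi0 n (T.sg d)
      refine b1.trans ?_
      unfold PTD.la PTD.h0 PTD.h1
      have y1 := (b2 0 0).1
      have y2 := (b2 0 1).1
      have y3 := (b2 1 0).1
      have y4 := (b2 1 1).1
      have z1 := mul_nonneg y1 x2
      have z2 := mul_nonneg y2 x2
      have z3 := mul_nonneg y3 x2
      have z4 := mul_nonneg y4 x2
      have z5 : 0 ≤ (t n).xi p d * (((t n).H p d).1 1 0 * (1 + (t n).xi p (T.sg d)) +
          ((t n).H p d).1 1 1 * (t n).xi p (T.sg d)) := by positivity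
      linarith
    · filter_upwards [hxi1] with n hx
      obtain ⟨-, b2⟩ := hb n
      rw [← hH] at b2
      set Y := exp ((n : ℝ) / 2) ^ (T.num c d) with hY
      have hYp : 0 < Y := pow_pos (Real.exp_pos _) _
      have x1 := hxi0 n d
      have x2 := hxi0 n (T.sg d)
      have w1 := hx d
      have w2 := hx (T.sg d)
      have hh : ∀ i, ((t n).H p d).1 i 0 * (1 + (t n).xi p (T.sg d)) +
          ((t n).H p d).1 i 1 * (t n).xi p (T.sg d) ≤ (1 + 2 * C1) * C * Y := by
        intro i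
        have u1 : ((t n).H p d).1 i 0 * (1 + (t n).xi p (T.sg d)) ≤ C * Y * (1 + C1) :=
          mul_le_mul (b2 i 0).2 (by linarith) (by linarith) (by positivity)
        have u2 : ((t n).H p d).1 i 1 * (t n).xi p (T.sg d) ≤ C * Y * C1 :=
          mul_le_mul (b2 i 1).2 w2 x2 (by positivity)
        calc _ ≤ C * Y * (1 + C1) + C * Y * C1 := add_le_add u1 u2
          _ = _ := by ring
      have hn1 : 0 ≤ ((t n).H p d).1 1 0 * (1 + (t n).xi p (T.sg d)) +
          ((t n).H p d).1 1 1 * (t n).xi p (T.sg d) := by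
        have y3 := (b2 1 0).1
        have y4 := (b2 1 1).1
        positivity
      show (t n).h0 p d + (t n).xi p d * (t n).h1 p d ≤ _
      have v0 : (t n).h0 p d ≤ (1 + 2 * C1) * C * Y := hh 0
      have v1 : (t n).xi p d * (t n).h1 p d ≤ C1 * ((1 + 2 * C1) * C * Y) :=
        mul_le_mul w1 (hh 1) hn1 hC1p.le
      calc _ ≤ (1 + 2 * C1) * C * Y + C1 * ((1 + 2 * C1) * C * Y) := add_le_add v0 v1
        _ = _ := by ring
  have hal : ∀ d, Tendsto (fun n : ℕ => (t n).al p d / n) atTop (𝓝 (c d : ℝ)) := by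
    intro d
    have h := ((hLam d).add (hLam (T.sg (T.sg d)))).sub (hLam (T.sg d))
    have e : (T.num c d : ℝ) / 2 + (T.num c (T.sg (T.sg d)) : ℝ) / 2 -
        (T.num c (T.sg d) : ℝ) / 2 = c d := by
      unfold Tri.num
      rw [T.sg3]
      push_cast
      ring
    rw [e] at h
    refine h.congr fun n => ?_
    unfold PTD.al
    ring
  have htw1 : ∀ d, Tendsto (fun n : ℕ => (t n).tw1 p d / n) atTop
      (𝓝 ((c (T.sg d) : ℝ) - c (T.io d))) := by
    intro d
    have h0 := tendsto_const_div_atTop_nhds_zero_nat (p.1 d)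
    have hb : Tendsto (fun n : ℕ => (2 * log (1 + (t n).xi p (T.sg d))) / n) atTop (𝓝 0) := by
      refine lim_bdd _ (2 * log (1 + C1)) (Eventually.of_forall fun n => ?_) ?_
      · have := Real.log_nonneg (show (1 : ℝ) ≤ 1 + (t n).xi p (T.sg d) by
          linarith [hxi0 n (T.sg d)])
        linarith
      · filter_upwards [hxi1] with n hx
        have := Real.log_le_log (show (0 : ℝ) < 1 + (t n).xi p (T.sg d) by
          linarith [hxi0 n (T.sg d)]) (show 1 + (t n).xi p (T.sg d) ≤ 1 + C1 by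
          linarith [hx (T.sg d)])
        linarith
    have h := ((h0.add (hal (T.sg d))).sub (hal (T.io d))).sub hb
    have e : (0 : ℝ) + (c (T.sg d) : ℝ) - c (T.io d) - 0 = (c (T.sg d) : ℝ) - c (T.io d) := by
      ring
    rw [e] at h
    refine h.congr fun n => ?_
    unfold PTD.tw1
    ring
  -- the scale
  have hom : Tendsto (fun n : ℕ => log ((t n).om p) / n) atTop (𝓝 ((a : ℝ) / 2)) := by
    obtain ⟨q, C, hq, hC, hb⟩ := prod_exp_bounds (fun i => g (P.v, i)) a
      (fun i hi => gpos (P.v, i) (lt_of_lt_of_le hi hav))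
    obtain ⟨a', rfl⟩ : ∃ a', a = a' + 1 := ⟨a - 1, by omega⟩
    obtain ⟨q', C', hq', hC', hb'⟩ := prod_exp_bounds (fun i => g (P.v, i)) a'
      (fun i hi => gpos (P.v, i) (show i < T.num c P.v by omega))
    obtain ⟨r, hr, hl⟩ := one_lower (g (P.v, a'))
      (gpos (P.v, a') (show a' < T.num c P.v by omega))
    have hB : ∀ n, (t n).B p =
        ((List.range (a' + 1)).map (fun i => g (P.v, i) ^ kk (g (P.v, i)) n)).prod :=
      fun n => hPd n P.v _ hav
    have hJ10 : 0 < (P.J p).1 1 0 := (hJ T P p hp).2.2.2.1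
    have hJ01 : (P.J p).1 0 1 = 0 := by simp [Portal.J]
    have hJ00 : 0 < (P.J p).1 0 0 := by
      have : (P.J p).1 0 0 = exp (p.2 / 2) := by simp [Portal.J]
      rw [this]
      exact Real.exp_pos _
    have hJ11 : 0 < (P.J p).1 1 1 := by
      have : (P.J p).1 1 1 = exp (-p.2 / 2) := by simp [Portal.J]
      rw [this]
      exact Real.exp_pos _
    -- the two relations
    have hrel : ∀ n, (t n).om p * (t n).xi p P.u = (P.J p).1 0 0 *
          (((t n).B p).1 1 1 * (t n).xi p P.v + ((t n).B p).1 0 1) ∧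
        (t n).om p = (P.J p).1 1 1 *
          (((t n).B p).1 1 0 * (t n).xi p P.v + ((t n).B p).1 0 0) -
          (P.J p).1 1 0 * (((t n).B p).1 1 1 * (t n).xi p P.v + ((t n).B p).1 0 1) := by
      intro n
      obtain ⟨-, -, -, -, -, -, -, -, -, -, hact, -⟩ := heig T P (t n) p hp
      obtain ⟨a1, a2⟩ := hact
      unfold PTD.RJ at a1 a2
      rw [prod_entry, prod_entry, Matrix.SpecialLinearGroup.coe_inv,
        Matrix.adjugate_fin_two] at a1 a2
      simp only [Matrix.of_apply, Matrix.cons_val', Matrix.cons_val_zero, Matrix.cons_val_one,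
        Matrix.cons_val_fin_one, hJ01] at a1 a2
      constructor
      · linarith
      · linarith
    have homp : ∀ n, 0 < (t n).om p := by
      intro n
      obtain ⟨-, -, -, -, -, -, -, -, h9, -⟩ := heig T P (t n) p hp
      exact h9
    refine lim_log (fun n => (t n).om p) (a' + 1) ((P.J p).1 0 0 * (q' * r) / C1)
      ((P.J p).1 1 1 * (1 + C1) * C) (by positivity) (by positivity) ?_ ?_
    · filter_upwards [hxi1, hkpos] with n hx hk
      obtain ⟨c1, c2⟩ := hb n
      rw [← hB] at c1 c2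
      obtain ⟨d1, d2⟩ := hb' n
      have l1 := hl n (hk a' (Nat.lt_succ_self _))
      have e1 : ((t n).B p).1 0 1 = (((List.range a').map
          (fun i => g (P.v, i) ^ kk (g (P.v, i)) n)).prod).1 0 0 *
            (g (P.v, a') ^ kk (g (P.v, a')) n).1 0 1 +
          (((List.range a').map (fun i => g (P.v, i) ^ kk (g (P.v, i)) n)).prod).1 0 1 *
            (g (P.v, a') ^ kk (g (P.v, a')) n).1 1 1 := by
        rw [hB, List.range_succ, List.map_append, List.prod_append]
        simp only [List.map_cons, List.map_nil, List.prod_cons, List.prod_nil, mul_one]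
        exact prod_entry _ _ _ _
      have e2 : q' * exp ((n : ℝ) / 2) ^ a' * (r * exp ((n : ℝ) / 2)) ≤ ((t n).B p).1 0 1 := by
        rw [e1]
        have w1 := mul_le_mul d1 l1 (by positivity) ((d2 0 0).1)
        have w2 : 0 ≤ (((List.range a').map
            (fun i => g (P.v, i) ^ kk (g (P.v, i)) n)).prod).1 0 1 *
            (g (P.v, a') ^ kk (g (P.v, a')) n).1 1 1 :=
          mul_nonneg (d2 0 1).1 (pow_nonneg _ (gpos (P.v, a') (show a' < T.num c P.v by omega)) _ 1 1)
        linarith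
      obtain ⟨r1, -⟩ := hrel n
      have x1 := hxi0 n P.v
      have x2 := hx P.u
      have x3 := homp n
      have w3 : (P.J p).1 0 0 * ((t n).B p).1 0 1 ≤ (t n).om p * C1 := by
        calc (P.J p).1 0 0 * ((t n).B p).1 0 1 ≤ (P.J p).1 0 0 *
              (((t n).B p).1 1 1 * (t n).xi p P.v + ((t n).B p).1 0 1) := by
              have := (c2 1 1).1
              have : 0 ≤ ((t n).B p).1 1 1 * (t n).xi p P.v := mul_nonneg this x1
              gcongr
              linarith
          _ = (t n).om p * (t n).xi p P.u := r1.symm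
          _ ≤ _ := by gcongr
      calc (P.J p).1 0 0 * (q' * r) / C1 * exp ((n : ℝ) / 2) ^ (a' + 1)
          = (P.J p).1 0 0 * (q' * exp ((n : ℝ) / 2) ^ a' * (r * exp ((n : ℝ) / 2))) / C1 := by
            rw [pow_succ]
            ring
        _ ≤ (P.J p).1 0 0 * ((t n).B p).1 0 1 / C1 := by gcongr
        _ ≤ (t n).om p := by
            rw [div_le_iff₀ hC1p]
            exact w3
    · filter_upwards [hxi1] with n hx
      obtain ⟨-, c2⟩ := hb n
      rw [← hB] at c2
      obtain ⟨-, r2⟩ := hrel n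
      have x1 := hxi0 n P.v
      have x2 := hx P.v
      set Y := exp ((n : ℝ) / 2) ^ (a' + 1) with hY
      have hYp : 0 < Y := pow_pos (Real.exp_pos _) _
      have w1 : 0 ≤ (P.J p).1 1 0 * (((t n).B p).1 1 1 * (t n).xi p P.v +
          ((t n).B p).1 0 1) := by
        have := (c2 1 1).1
        have := (c2 0 1).1
        positivity
      have w2 : ((t n).B p).1 1 0 * (t n).xi p P.v + ((t n).B p).1 0 0 ≤ (1 + C1) * C * Y := by
        have u1 : ((t n).B p).1 1 0 * (t n).xi p P.v ≤ C * Y * C1 :=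
          mul_le_mul (c2 1 0).2 x2 x1 (by positivity)
        have u2 := (c2 0 0).2
        calc _ ≤ C * Y * C1 + C * Y := add_le_add u1 u2
          _ = _ := by ring
      show (t n).om p ≤ _
      calc (t n).om p ≤ (P.J p).1 1 1 *
            (((t n).B p).1 1 0 * (t n).xi p P.v + ((t n).B p).1 0 0) := by linarith
        _ ≤ (P.J p).1 1 1 * ((1 + C1) * C * Y) := by gcongr
        _ = _ := by ring
  refine ⟨t, ?_, ?_⟩
  · intro d
    show Tendsto (fun n : ℕ => (if d = T.io P.u then (t n).tw1 p P.u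
      else if d = T.io P.v then (t n).tw1 p P.v else (t n).tw1 p d) / (n : ℝ)) atTop
      (𝓝 (if d = T.io P.u then (c (T.sg P.u) : ℝ) - c (T.io P.u)
        else if d = T.io P.v then (c (T.sg P.v) : ℝ) - c (T.io P.v)
        else (c (T.sg d) : ℝ) - c (T.io d)))
    by_cases h1 : d = T.io P.u
    · simp only [if_pos h1]
      exact htw1 P.u
    · by_cases h2 : d = T.io P.v
      · simp only [if_neg h1, if_pos h2]
        exact htw1 P.v
      · simp only [if_neg h1, if_neg h2]
        exact htw1 d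
  · have h := ((hal P.v).sub (hal P.u)).sub (hom.const_mul 2)
    have e : (c P.v : ℝ) - c P.u - 2 * ((a : ℝ) / 2) = (P.dirc c a).2 := by
      show (c P.v : ℝ) - c P.u - 2 * ((a : ℝ) / 2) = (c P.v : ℝ) - c P.u - a
      ring
    rw [e] at h
    refine h.congr fun n => ?_
    show _ = ((t n).al p P.v - (t n).al p P.u - 2 * log ((t n).om p)) / (n : ℝ)
    ring

end Run7.h113.DG
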