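import Pool.Agent.Run7.h568.DG.Iface

/-!
# Powers of one positive matrix (piece S_pow of project DG)
-/

open Real Matrix Filter Topology

noncomputable section

namespace Run7.h113.DG

open Run7.h568.DG

/-- The larger eigenvalue as a function of the trace. -/
def mu (t : ℝ) : ℝ := (t + √(t ^ 2 - 4)) / 2

theorem mu_sq {t : ℝ} (ht : 2 < t) : mu t ^ 2 = t * mu t - 1 := by
  have h : √(t ^ 2 - 4) ^ 2 = t ^ 2 - 4 := Real.sq_sqrt (by nlinarith)
  unfold mu
  nlinarith [h]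

theorem one_lt_mu {t : ℝ} (ht : 2 < t) : 1 < mu t := by
  have h : 0 ≤ √(t ^ 2 - 4) := Real.sqrt_nonneg _
  unfold mu
  linarith

theorem det2 (g : SL) : g.1 0 0 * g.1 1 1 - g.1 0 1 * g.1 1 0 = 1 := by
  have h := g.2
  rw [Matrix.det_fin_two] at h
  exact h

theorem tr_gt (g : SL) (hg : ∀ a b, 0 < g.1 a b) : 2 < tr g := by
  have h := det2 g
  have h1 := mul_pos (hg 0 1) (hg 1 0)
  have h0 := hg 0 0
  have h3 := hg 1 1
  unfold tr
  by_contra hc
  push Not at hc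
  nlinarith [sq_nonneg (g.1 0 0 - g.1 1 1), sq_nonneg (g.1 0 0 + g.1 1 1)]

theorem pow_entry (g : SL) (m : ℕ) (a b : Fin 2) :
    (g ^ (m + 1)).1 a b = (g ^ m).1 a 0 * g.1 0 b + (g ^ m).1 a 1 * g.1 1 b := by
  rw [pow_succ]
  simp [Matrix.mul_apply, Fin.sum_univ_two]

theorem pow_nonneg (g : SL) (hg : ∀ a b, 0 < g.1 a b) (m : ℕ) (a b : Fin 2) :
    0 ≤ (g ^ m).1 a b := by
  induction m generalizing a b with
  | zero =>
    simp only [pow_zero, Matrix.SpecialLinearGroup.coe_one]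
    fin_cases a <;> fin_cases b <;> simp
  | succ m ih =>
    rw [pow_entry]
    have h0 := ih a 0
    have h1 := ih a 1
    have h2 := (hg 0 b).le
    have h3 := (hg 1 b).le
    positivity

/-- The positive eigenvector. -/
theorem eigvec (g : SL) (hg : ∀ a b, 0 < g.1 a b) :
    ∃ v0 v1 : ℝ, 0 < v0 ∧ 0 < v1 ∧ g.1 0 0 * v0 + g.1 0 1 * v1 = mu (tr g) * v0 ∧
      g.1 1 0 * v0 + g.1 1 1 * v1 = mu (tr g) * v1 := by
  have ht := tr_gt g hg
  have hd := det2 g
  have hm := mu_sq ht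
  have hbc := mul_pos (hg 0 1) (hg 1 0)
  refine ⟨g.1 0 1, mu (tr g) - g.1 0 0, hg 0 1, ?_, by ring, ?_⟩
  · have h1 : (g.1 0 0 - g.1 1 1) ^ 2 < tr g ^ 2 - 4 := by
      unfold tr
      nlinarith
    have h2 : |g.1 0 0 - g.1 1 1| < √(tr g ^ 2 - 4) := by
      rw [← Real.sqrt_sq_eq_abs]
      exact Real.sqrt_lt_sqrt (sq_nonneg _) h1
    have h3 := lt_of_le_of_lt (le_abs_self _) h2
    unfold mu
    unfold tr at h3 ⊢
    linarith
  · have e : tr g = g.1 0 0 + g.1 1 1 := rfl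
    rw [e] at hm ⊢
    nlinarith

theorem pow_eig (g : SL) {v0 v1 : ℝ} {r : ℝ}
    (h0 : g.1 0 0 * v0 + g.1 0 1 * v1 = r * v0)
    (h1 : g.1 1 0 * v0 + g.1 1 1 * v1 = r * v1) (m : ℕ) (a : Fin 2) :
    (g ^ m).1 a 0 * v0 + (g ^ m).1 a 1 * v1 = r ^ m * (if a = 0 then v0 else v1) := by
  induction m with
  | zero =>
    simp only [pow_zero, Matrix.SpecialLinearGroup.coe_one, one_mul]
    fin_cases a <;> simp [Matrix.one_apply]
  | succ m ih =>
    rw [pow_entry, pow_entry, pow_succ]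
    calc ((g ^ m).1 a 0 * g.1 0 0 + (g ^ m).1 a 1 * g.1 1 0) * v0 +
          ((g ^ m).1 a 0 * g.1 0 1 + (g ^ m).1 a 1 * g.1 1 1) * v1
        = (g ^ m).1 a 0 * (g.1 0 0 * v0 + g.1 0 1 * v1) +
          (g ^ m).1 a 1 * (g.1 1 0 * v0 + g.1 1 1 * v1) := by ring
      _ = r * ((g ^ m).1 a 0 * v0 + (g ^ m).1 a 1 * v1) := by rw [h0, h1]; ring
      _ = _ := by rw [ih]; ring

/-- Piece S_pow. -/
theorem pow : S_pow := by
  intro g hg
  refine ⟨tr_gt g hg, ?_⟩
  obtain ⟨v0, v1, hv0, hv1, e0, e1⟩ := eigvec g hg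
  have hmu : 0 < mu (tr g) := lt_trans one_pos (one_lt_mu (tr_gt g hg))
  change ∃ c C : ℝ, 0 < c ∧ 0 < C ∧ ∀ m : ℕ, c * (mu (tr g)) ^ m ≤ (g ^ m).1 0 0 ∧
    ∀ a b, 0 ≤ (g ^ m).1 a b ∧ (g ^ m).1 a b ≤ C * (mu (tr g)) ^ m
  set r := mu (tr g) with hr
  set k := min (g.1 0 0 / v0) (g.1 1 0 / v1) with hk
  have hk0 : 0 < k := lt_min (div_pos (hg 0 0) hv0) (div_pos (hg 1 0) hv1)
  have hka : k * v0 ≤ g.1 0 0 := (le_div_iff₀ hv0).1 (min_le_left _ _)
  have hkb : k * v1 ≤ g.1 1 0 := (le_div_iff₀ hv1).1 (min_le_right _ _)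
  refine ⟨min 1 (k * v0 / r), 1 + v0 / v1 + v1 / v0, by positivity, by positivity, ?_⟩
  intro m
  constructor
  · rcases m with _ | m
    · simp only [pow_zero, Matrix.SpecialLinearGroup.coe_one]
      simp
    · have hc : min 1 (k * v0 / r) ≤ k * v0 / r := min_le_right _ _
      have h1 := pow_eig g e0 e1 m 0
      simp only [if_true] at h1
      have n0 := pow_nonneg g hg m 0 0
      have n1 := pow_nonneg g hg m 0 1
      rw [pow_entry]
      calc min 1 (k * v0 / r) * r ^ (m + 1) ≤ k * v0 / r * r ^ (m + 1) := by gcongr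
        _ = k * (r ^ m * v0) := by rw [pow_succ]; field_simp
        _ = (g ^ m).1 0 0 * (k * v0) + (g ^ m).1 0 1 * (k * v1) := by rw [← h1]; ring
        _ ≤ _ := by gcongr
  · intro a b
    refine ⟨pow_nonneg g hg m a b, ?_⟩
    have h1 := pow_eig g e0 e1 m a
    have n0 := pow_nonneg g hg m a 0
    have n1 := pow_nonneg g hg m a 1
    have hq1 : 0 < v0 / v1 := div_pos hv0 hv1
    have hq2 : 0 < v1 / v0 := div_pos hv1 hv0
    have hrm : 0 < r ^ m := by positivity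
    have m0 : 0 ≤ (g ^ m).1 a 0 * v0 := by positivity
    have m1 : 0 ≤ (g ^ m).1 a 1 * v1 := by positivity
    have key : ∀ x v w : ℝ, 0 < v → x * v ≤ r ^ m * w → x ≤ w / v * r ^ m := by
      intro x v w hv h
      rw [div_mul_eq_mul_div, le_div_iff₀ hv]
      linarith
    have fin : ∀ q : ℝ, q ≤ 1 + v0 / v1 + v1 / v0 → q * r ^ m ≤ (1 + v0 / v1 + v1 / v0) * r ^ m := by
      intro q hq
      gcongr
    fin_cases a <;> fin_cases b <;> simp only [Fin.zero_eta, Fin.mk_one, Fin.isValue, if_true,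
      one_ne_zero, if_false] at h1 n0 n1 m0 m1 ⊢
    · exact (key _ v0 v0 hv0 (by linarith)).trans (fin _ (by rw [div_self hv0.ne']; linarith))
    · exact (key _ v1 v0 hv1 (by linarith)).trans (fin _ (by linarith))
    · exact (key _ v0 v1 hv0 (by linarith)).trans (fin _ (by linarith))
    · exact (key _ v1 v1 hv1 (by linarith)).trans (fin _ (by rw [div_self hv1.ne']; linarith))

end Run7.h113.DG
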